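import Pool.Agent.Q257.WA.Fin2

/-!
# The critical constant for uniform bounds of inverses in the Wiener algebra of the disc is `1 / 2`

Upper bound: if the bound failed for some `δ > 1 / 2`, there would be a sequence of polynomials `p_n`
whose classes in the algebra of bounded sequences of elements of the Wiener algebra of the circle
form a non-invertible element, hence a character `Φ` of this algebra with `Φ (p_n) = 0`. Split
`p_n` according to the size of the coefficients as `g_n + e_n + h_n`, where the window `e_n` has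
small mass, `g_n` has boundedly many terms and `h_n` has very small coefficients. Then
`|Φ (g)| + |Φ (h)| ≤ 1` and `|Φ (g)| ≤ |Φ (h)| + ε`, so `|Φ (g)| ≤ 1 / 2 + ε`. The values of the
characters `z ^ m` at `Φ` satisfy all the relations of bounded height of the frequencies of `g_n`,
so a kernel average gives points of the circle where `g_n` is close to `Φ (g)` and `h_n` is small.
So `δ ≤ 1 / 2 + O(ε)`. Lower bound (Katznelson): polynomials `h_n` with norm one, small absolute
value on the disc and powers of norm at least `1 / 2`.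
-/

set_option autoImplicit false

namespace Pool.Agent.Results.MP_de3d06_an.DeltaZeroHalf

open Q257.WA

open scoped ENNReal

/-- The class `F_δ`: sequences `a` with `∑ |a n| = 1` and `|∑ a n z ^ n| ≥ δ` on the open disc. -/
def Fam (δ : ℝ) : Set (ℕ → ℂ) :=
  {a | HasSum (fun n => ‖a n‖) 1 ∧ ∀ z : ℂ, ‖z‖ < 1 → δ ≤ ‖∑' n, a n * z ^ n‖}

/-- The Taylor coefficients at `0` of the reciprocal of `f (z) = ∑ a n z ^ n`. -/
noncomputable def recipCoeff (a : ℕ → ℂ) (n : ℕ) : ℂ :=
  iteratedDeriv n (fun z : ℂ => (∑' k, a k * z ^ k)⁻¹) 0 / n.factorial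

/-- `M (f)`: the sum of the absolute values of the Taylor coefficients of `1 / f`. -/
noncomputable def M (a : ℕ → ℂ) : ℝ≥0∞ := ∑' n, ENNReal.ofReal ‖recipCoeff a n‖

/-- `C (δ)`: the supremum of `M` over the class `F_δ`. -/
noncomputable def C (δ : ℝ) : ℝ≥0∞ := ⨆ a ∈ Fam δ, M a

/-- The critical constant. -/
noncomputable def delta0 : ℝ := sInf {δ : ℝ | 0 < δ ∧ δ ≤ 1 ∧ C δ < ⊤}

theorem C_lt_top (δ : ℝ) (hδ : 1 / 2 < δ) : C δ < ⊤ := by
  obtain ⟨K, hK⟩ := upper δ hδ
  refine lt_of_le_of_lt ?_ (ENNReal.ofReal_lt_top (r := K))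
  refine iSup₂_le fun a ha => ?_
  obtain ⟨b, hb1, hb2, hb3⟩ := hK a ha.1.summable ha.1.tsum_eq.le ha.2
  have h1 : ∀ n, recipCoeff a n = b n := taylor_recip a b hb2 hb1
  unfold M
  simp only [h1]
  rw [← ENNReal.ofReal_tsum_of_nonneg (fun n => norm_nonneg _) hb2]
  exact ENNReal.ofReal_le_ofReal hb3

theorem C_eq_top (δ : ℝ) (hδ : δ < 1 / 2) : C δ = ⊤ := by
  refine ENNReal.eq_top_of_forall_nnreal_le fun K => ?_
  obtain ⟨a, b, h1, h2, h3, h4, h5⟩ := lower δ hδ K
  have h6 : ∀ n, recipCoeff a n = b n := taylor_recip a b h3 h4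
  have h7 : M a ≤ C δ := le_iSup₂ (f := fun a (_ : a ∈ Fam δ) => M a) a ⟨h1, h2⟩
  refine le_trans ?_ h7
  unfold M
  simp only [h6]
  rw [← ENNReal.ofReal_tsum_of_nonneg (fun n => norm_nonneg _) h3, ← ENNReal.ofReal_coe_nnreal]
  exact ENNReal.ofReal_le_ofReal h5.le

/-- **Theorem.** `C (δ)` is finite for every `δ > 1 / 2` and infinite for every `δ < 1 / 2`; so the
critical constant `δ₀` is `1 / 2`. -/
theorem result : (∀ δ : ℝ, 1 / 2 < δ → C δ < ⊤) ∧ (∀ δ : ℝ, δ < 1 / 2 → C δ = ⊤) ∧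
    delta0 = 1 / 2 := by
  refine ⟨C_lt_top, C_eq_top, ?_⟩
  unfold delta0
  apply le_antisymm
  · apply le_of_forall_pos_le_add
    intro ε hε
    have h1 : 1 / 2 < min 1 (1 / 2 + ε) := lt_min (by norm_num) (by linarith)
    have h2 : BddBelow {δ : ℝ | 0 < δ ∧ δ ≤ 1 ∧ C δ < ⊤} := ⟨0, fun δ h => h.1.le⟩
    exact (csInf_le h2 ⟨by linarith, min_le_left _ _, C_lt_top _ h1⟩).trans (min_le_right _ _)
  · apply le_csInf
    · exact ⟨1, one_pos, le_rfl, C_lt_top 1 (by norm_num)⟩
    · rintro δ ⟨-, -, h⟩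
      by_contra hcon
      rw [C_eq_top δ (not_le.1 hcon)] at h
      exact lt_irrefl _ h

end Pool.Agent.Results.MP_de3d06_an.DeltaZeroHalf
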